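import Pool.Agent.Run7.h425.RN.Iface

/-!
# Project RN (helper425), piece SUP: superadditivity
-/

set_option autoImplicit false

namespace Run7.h760.RN

open MeasureTheory Real Pool.Agent.Run7.h425.RN
open scoped ENNReal

theorem sh_glue (n : ℕ) (q : (ℕ → Tc) × (ℕ → Tc)) : sh n (glue n q) = q.2 := by
  funext i
  simp [sh, glue]

theorem glue_lt (n : ℕ) (q : (ℕ → Tc) × (ℕ → Tc)) : ∀ i < n, glue n q i = q.1 i := by
  intro i hi
  simp [glue, hi]

theorem sh_add (n m : ℕ) (ω : ℕ → Tc) : sh (n + m) ω = sh m (sh n ω) := by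
  funext i
  simp [sh, add_assoc]

theorem continuous_sh (n : ℕ) : Continuous (sh n) :=
  continuous_pi fun i => continuous_apply (n + i)

theorem pw_ofReal {y : ℝ} (hy : 0 < y) (r : ℝ) : pw r y = ENNReal.ofReal (y ^ (-r)) := by
  unfold pw
  rw [abs_of_pos hy, ENNReal.ofReal_rpow_of_pos hy]

/-- the law of the noise times the area -/
noncomputable abbrev MM (ν : Measure Tc) [IsProbabilityMeasure ν] : Measure ((ℕ → Tc) × T2) :=
  (PP ν).prod volume

theorem one_le_D {ν : Measure Tc} [IsProbabilityMeasure ν] {D : ℝ}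
    (hν : ν ≤ ENNReal.ofReal D • (volume : Measure Tc)) : 1 ≤ D := by
  have h := hν Set.univ
  rw [Measure.smul_apply, measure_univ, measure_univ, smul_eq_mul, mul_one] at h
  exact ENNReal.one_le_ofReal.1 h

section

variable (hCONT : S_CONT) (hBND : S_BND) (hSTAT : S_STAT) {a : ℝ} (ha : 1 ≤ |a|)

include hBND ha in
theorem norm_pos (ω : ℕ → Tc) (p : T2) (n : ℕ) : 0 < ‖A a ω p n‖ := by
  have := ((hBND a ha).1 ω p n).2
  linarith

include hBND ha in
theorem abs_log_le (ω : ℕ → Tc) (p : T2) (n : ℕ) :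
    |log ‖A a ω p n‖| ≤ log 2 + n * log (10 * |a|) := by
  obtain ⟨h1, h2⟩ := (hBND a ha).1 ω p n
  have h0 := norm_pos hBND ha ω p n
  have h3 : log ‖A a ω p n‖ ≤ n * log (10 * |a|) := by
    rw [← log_pow]
    exact log_le_log h0 h1
  have h4 : -log 2 ≤ log ‖A a ω p n‖ := by
    rw [← log_inv]
    apply log_le_log (by norm_num)
    linarith
  have h5 : 0 ≤ log 2 := log_nonneg (by norm_num)
  have h6 : 0 ≤ n * log (10 * |a|) := by
    apply mul_nonneg (Nat.cast_nonneg _)
    apply log_nonneg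
    linarith
  rw [abs_le]
  constructor <;> linarith

include hCONT in
theorem cont_norm (n : ℕ) : Continuous fun q : (ℕ → Tc) × T2 => ‖A a q.1 q.2 n‖ :=
  (hCONT a n).2.norm

include hCONT in
theorem cont_C (n m : ℕ) : Continuous fun q : (ℕ → Tc) × T2 =>
    ‖A a (sh n q.1) (orb a q.1 q.2 n) m‖ := by
  have h : Continuous fun q : (ℕ → Tc) × T2 => (sh n q.1, orb a q.1 q.2 n) :=
    ((continuous_sh n).comp continuous_fst).prodMk (hCONT a n).1
  exact (cont_norm hCONT m).comp h

include hCONT hBND ha in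
theorem int_log (ν : Measure Tc) [IsProbabilityMeasure ν] (n : ℕ) :
    Integrable (fun q : (ℕ → Tc) × T2 => log ‖A a q.1 q.2 n‖) (MM ν) := by
  apply Integrable.of_bound (C := log 2 + n * log (10 * |a|))
  · exact (measurable_log.comp (cont_norm hCONT n).measurable).aestronglyMeasurable
  · exact ae_of_all _ fun q => abs_log_le hBND ha q.1 q.2 n

include hCONT hBND ha in
theorem int_logC (ν : Measure Tc) [IsProbabilityMeasure ν] (n m : ℕ) :
    Integrable (fun q : (ℕ → Tc) × T2 => log ‖A a (sh n q.1) (orb a q.1 q.2 n) m‖) (MM ν) := by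
  apply Integrable.of_bound (C := log 2 + m * log (10 * |a|))
  · exact (measurable_log.comp (cont_C hCONT n m).measurable).aestronglyMeasurable
  · exact ae_of_all _ fun q => abs_log_le hBND ha _ _ m

include hCONT hBND ha in
theorem Lam_eq (ν : Measure Tc) [IsProbabilityMeasure ν] (n : ℕ) :
    Lam a ν n = ∫ q, log ‖A a q.1 q.2 n‖ ∂(MM ν) :=
  (integral_prod _ (int_log hCONT hBND ha ν n)).symm

include hCONT hBND hSTAT ha in
theorem Lam_eqC (hsh : ∀ (ν : Measure Tc) [IsProbabilityMeasure ν] (n : ℕ),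
    MeasurePreserving (sh n) (PP ν) (PP ν)) (ν : Measure Tc) [IsProbabilityMeasure ν] (n m : ℕ) :
    Lam a ν m = ∫ q, log ‖A a (sh n q.1) (orb a q.1 q.2 n) m‖ ∂(MM ν) := by
  rw [integral_prod _ (int_logC hCONT hBND ha ν n m)]
  have h1 : ∀ ω : ℕ → Tc, ∫ p : T2, log ‖A a (sh n ω) (orb a ω p n) m‖ =
      ∫ p : T2, log ‖A a (sh n ω) p m‖ := by
    intro ω
    have hc : Continuous fun p : T2 => ‖A a (sh n ω) p m‖ :=
      (cont_norm hCONT m).comp (continuous_const.prodMk continuous_id)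
    have hm : AEStronglyMeasurable (fun p : T2 => log ‖A a (sh n ω) p m‖)
        (Measure.map (fun p : T2 => orb a ω p n) volume) :=
      (measurable_log.comp hc.measurable).aestronglyMeasurable
    have := integral_map (hSTAT a ω n).measurable.aemeasurable hm
    rw [(hSTAT a ω n).map_eq] at this
    exact this.symm
  show Lam a ν m = ∫ ω, ∫ p : T2, log ‖A a (sh n ω) (orb a ω p n) m‖ ∂volume ∂(PP ν)
  simp only [h1]
  have hG : StronglyMeasurable fun ω : ℕ → Tc => ∫ p : T2, log ‖A a ω p m‖ := by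
    have : StronglyMeasurable fun q : (ℕ → Tc) × T2 => log ‖A a q.1 q.2 m‖ :=
      (measurable_log.comp (cont_norm hCONT m).measurable).stronglyMeasurable
    exact this.integral_prod_right'
  have h2 := integral_map (μ := PP ν) (hsh ν n).measurable.aemeasurable
    (f := fun ω : ℕ → Tc => ∫ p : T2, log ‖A a ω p m‖) hG.aestronglyMeasurable
  rw [(hsh ν n).map_eq] at h2
  exact h2

end

/-- **SUP.** -/
theorem t_SUP : S_MIX → S_GLUE → S_CONT → S_BND → S_COC → S_STAT → S_SUP := by
  intro hMIX hGLUE hCONT hBND hCOC hSTAT ν _ D hν a ha n m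
  have hD := one_le_D hν
  have ha0 : 0 < |a| := by linarith
  set R : ℝ := 2048 * |a| ^ 3 * D ^ 4 with hR
  have hR0 : 0 < R := by positivity
  set Y : (ℕ → Tc) × T2 → ℝ := fun q => (‖A a q.1 q.2 n‖ *
    ‖A a (sh (n + 4) q.1) (orb a q.1 q.2 (n + 4)) m‖ / ‖A a q.1 q.2 (n + 4 + m)‖) ^ (1 / 8 : ℝ)
    with hY
  have hYm : Measurable Y :=
    (((cont_norm hCONT n).measurable.mul (cont_C hCONT (n + 4) m).measurable).div
      (cont_norm hCONT (n + 4 + m)).measurable).pow_const _
  have hYpos : ∀ q, 0 < Y q := by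
    intro q
    rw [hY]
    have := norm_pos hBND ha q.1 q.2 n
    have := norm_pos hBND ha (sh (n + 4) q.1) (orb a q.1 q.2 (n + 4)) m
    have := norm_pos hBND ha q.1 q.2 (n + 4 + m)
    positivity
  -- the bound for the integral
  have hYint : ∫⁻ q, ENNReal.ofReal (Y q) ∂(MM ν) ≤ ENNReal.ofReal R := by
    rw [lintegral_prod_symm _ hYm.ennreal_ofReal.aemeasurable]
    have hp : ∀ p : T2, ∫⁻ ω, ENNReal.ofReal (Y (ω, p)) ∂(PP ν) ≤ ENNReal.ofReal R := by
      intro p
      have hYp : Measurable fun ω : ℕ → Tc => ENNReal.ofReal (Y (ω, p)) :=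
        (hYm.comp (measurable_id.prodMk measurable_const)).ennreal_ofReal
      have hYg : Measurable fun q : (ℕ → Tc) × (ℕ → Tc) => ENNReal.ofReal (Y (glue n q, p)) :=
        hYp.comp ((hGLUE ν n).1).measurable
      rw [← ((hGLUE ν n).1).lintegral_comp hYp, lintegral_prod _ hYg.aemeasurable]
      have hω : ∀ ω : ℕ → Tc, ∫⁻ ω' : ℕ → Tc, ENNReal.ofReal (Y (glue n (ω, ω'), p)) ∂(PP ν) ≤
          ENNReal.ofReal R := by
        intro ω
        set B := A a ω p n with hB
        set X := orb a ω p n with hX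
        have hB0 : 0 < ‖B‖ := norm_pos hBND ha ω p n
        have key : ∀ ω' : ℕ → Tc, ENNReal.ofReal (Y (glue n (ω, ω'), p)) =
            ENNReal.ofReal (‖B‖ ^ (1 / 8 : ℝ)) * (pw (1 / 8) ‖(A a ω' X (4 + m)).comp B‖ *
              (ENNReal.ofReal ‖A a (sh 4 ω') (orb a ω' X 4) m‖) ^ (1 / 8 : ℝ)) := by
          intro ω'
          have e1 := (hCOC a p).2 (glue n (ω, ω')) ω n (glue_lt n (ω, ω'))
          have e2 := (hCOC a p).1 (glue n (ω, ω')) n 4
          have e3 := (hCOC a p).1 (glue n (ω, ω')) n (4 + m)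
          rw [sh_glue, e1.1] at e2 e3
          have hT0 : 0 < ‖(A a ω' X (4 + m)).comp B‖ := by
            rw [hB, ← e1.2, hX, ← e3.2]
            exact norm_pos hBND ha _ _ _
          have hC0 : 0 < ‖A a (sh 4 ω') (orb a ω' X 4) m‖ := norm_pos hBND ha _ _ _
          have hYe : Y (glue n (ω, ω'), p) = (‖B‖ * ‖A a (sh 4 ω') (orb a ω' X 4) m‖ /
              ‖(A a ω' X (4 + m)).comp B‖) ^ (1 / 8 : ℝ) := by
            rw [hY]
            simp only
            rw [sh_add, sh_glue, e2.1, add_assoc, e3.2, e1.2]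
          rw [hYe, pw_ofReal hT0, ENNReal.ofReal_rpow_of_pos hC0,
            ← ENNReal.ofReal_mul (by positivity), ← ENNReal.ofReal_mul (by positivity)]
          congr 1
          rw [Real.div_rpow (by positivity) (by positivity), Real.mul_rpow (by positivity)
            (by positivity), Real.rpow_neg (by positivity)]
          ring
        simp only [key]
        rw [lintegral_const_mul' _ _ ENNReal.ofReal_ne_top]
        calc ENNReal.ofReal (‖B‖ ^ (1 / 8 : ℝ)) * ∫⁻ ω' : ℕ → Tc,
              pw (1 / 8) ‖(A a ω' X (4 + m)).comp B‖ *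
              (ENNReal.ofReal ‖A a (sh 4 ω') (orb a ω' X 4) m‖) ^ (1 / 8 : ℝ) ∂(PP ν)
            ≤ ENNReal.ofReal (‖B‖ ^ (1 / 8 : ℝ)) * (ENNReal.ofReal R * pw (1 / 8) ‖B‖) := by
              gcongr
              exact hMIX ν D hν a ha X B (norm_pos_iff.1 hB0) m
          _ = ENNReal.ofReal R := by
              rw [pw_ofReal hB0, ← ENNReal.ofReal_mul (by positivity),
                ← ENNReal.ofReal_mul (by positivity)]
              congr 1
              rw [Real.rpow_neg (by positivity)]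
              have : ‖B‖ ^ (1 / 8 : ℝ) ≠ 0 := (by positivity : (0 : ℝ) < _).ne'
              field_simp
      calc ∫⁻ ω, ∫⁻ ω' : ℕ → Tc, ENNReal.ofReal (Y (glue n (ω, ω'), p)) ∂(PP ν) ∂(PP ν)
          ≤ ∫⁻ _ω, ENNReal.ofReal R ∂(PP ν) := lintegral_mono hω
        _ = ENNReal.ofReal R := by simp
    calc ∫⁻ p : T2, ∫⁻ ω, ENNReal.ofReal (Y (ω, p)) ∂(PP ν)
        ≤ ∫⁻ _p : T2, ENNReal.ofReal R := lintegral_mono hp
      _ = ENNReal.ofReal R := by simp
  have hYI : Integrable Y (MM ν) := by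
    refine ⟨hYm.aestronglyMeasurable, ?_⟩
    rw [hasFiniteIntegral_iff_ofReal (ae_of_all _ fun q => (hYpos q).le)]
    exact hYint.trans_lt ENNReal.ofReal_lt_top
  have hYle : ∫ q, Y q ∂(MM ν) ≤ R := by
    rw [integral_eq_lintegral_of_nonneg_ae (ae_of_all _ fun q => (hYpos q).le)
      hYm.aestronglyMeasurable]
    exact ENNReal.toReal_le_of_le_ofReal hR0.le hYint
  -- the pointwise inequality
  have hpt : ∀ q : (ℕ → Tc) × T2, log ‖A a q.1 q.2 n‖ +
      log ‖A a (sh (n + 4) q.1) (orb a q.1 q.2 (n + 4)) m‖ - log ‖A a q.1 q.2 (n + 4 + m)‖ ≤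
      8 * (log R - 1) + 8 / R * Y q := by
    intro q
    have h1 := norm_pos hBND ha q.1 q.2 n
    have h2 := norm_pos hBND ha (sh (n + 4) q.1) (orb a q.1 q.2 (n + 4)) m
    have h3 := norm_pos hBND ha q.1 q.2 (n + 4 + m)
    have h4 : log (Y q) = 1 / 8 * (log ‖A a q.1 q.2 n‖ +
        log ‖A a (sh (n + 4) q.1) (orb a q.1 q.2 (n + 4)) m‖ -
        log ‖A a q.1 q.2 (n + 4 + m)‖) := by
      rw [hY]
      simp only
      rw [log_rpow (by positivity), log_div (by positivity) (by positivity),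
        log_mul (by positivity) (by positivity)]
    have h5 : log (Y q / R) ≤ Y q / R - 1 := log_le_sub_one_of_pos (by have := hYpos q; positivity)
    rw [log_div (hYpos q).ne' hR0.ne'] at h5
    have h6 : 8 / R * Y q = 8 * (Y q / R) := by ring
    rw [h6]
    linarith
  have hI := integral_mono (((int_log hCONT hBND ha ν n).add
    (int_logC hCONT hBND ha ν (n + 4) m)).sub (int_log hCONT hBND ha ν (n + 4 + m)))
    ((integrable_const (8 * (log R - 1))).add (hYI.const_mul (8 / R))) hpt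
  simp only [Pi.add_apply, Pi.sub_apply] at hI
  rw [integral_sub, integral_add, integral_add, integral_const, integral_const_mul,
    ← Lam_eq hCONT hBND ha, ← Lam_eq hCONT hBND ha,
    ← Lam_eqC hCONT hBND hSTAT ha (fun ν _ n => (hGLUE ν n).2)] at hI
  · have hu : (MM ν).real Set.univ = 1 := by simp
    rw [hu, smul_eq_mul, one_mul] at hI
    have h7 : 8 / R * ∫ q, Y q ∂(MM ν) ≤ 8 := by
      calc 8 / R * ∫ q, Y q ∂(MM ν) ≤ 8 / R * R := by gcongr
        _ = 8 := by field_simp
    linarith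
  · exact integrable_const _
  · exact hYI.const_mul _
  · exact int_log hCONT hBND ha ν n
  · exact int_logC hCONT hBND ha ν (n + 4) m
  · exact (int_log hCONT hBND ha ν n).add (int_logC hCONT hBND ha ν (n + 4) m)
  · exact int_log hCONT hBND ha ν (n + 4 + m)

end Run7.h760.RN
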